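import Pool.Agent.Y503.RB.Stm

/-!
# RB-CONT: continuity of the coefficients (helper349, for helper503)
-/

set_option autoImplicit false

namespace Pool.Agent.Y349.RB

open scoped ContDiff RealInnerProductSpace ENNReal
open MeasureTheory Set Pool.Agent.Y503.RB

variable {φ N₁ N₂ : ℂ → E4} {U : Set ℂ}

theorem norm_nor (hF : Frame φ N₁ N₂ U) {z : ℂ} (hz : z ∈ U) (θ : ℝ) : ‖nor N₁ N₂ θ z‖ = 1 := by
  have h1 : ‖nor N₁ N₂ θ z‖ ^ 2 = 1 := by
    unfold nor
    rw [← real_inner_self_eq_norm_sq, inner_add_left, inner_add_right, inner_add_right]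
    simp only [real_inner_smul_left, real_inner_smul_right]
    rw [real_inner_comm (N₁ z) (N₂ z), hF.orth z hz, real_inner_self_eq_norm_sq,
      real_inner_self_eq_norm_sq, hF.unit₁ z hz, hF.unit₂ z hz]
    have := Real.sin_sq_add_cos_sq θ
    nlinarith [this]
  have h2 : (0 : ℝ) ≤ ‖nor N₁ N₂ θ z‖ := norm_nonneg _
  nlinarith [sq_nonneg (‖nor N₁ N₂ θ z‖ - 1), sq_nonneg (‖nor N₁ N₂ θ z‖ + 1)]

theorem den_pos {p n : E4} (hp : ‖p‖ < 1) (hn : ‖n‖ = 1) : 0 < 2 * (1 + ⟪p, n⟫) := by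
  have h1 := abs_real_inner_le_norm p n
  rw [hn, mul_one] at h1
  have h2 := neg_le_of_abs_le h1
  linarith

theorem rad_lt {p n : E4} (hp : ‖p‖ < 1) (hn : ‖n‖ = 1) : rad p n < 1 := by
  unfold rad
  rw [div_lt_one (den_pos hp hn)]
  have h1 := abs_real_inner_le_norm p n
  rw [hn, mul_one] at h1
  have h2 := neg_le_of_abs_le h1
  nlinarith [sq_pos_of_pos (sub_pos.2 hp)]

theorem det_pos (h : Patch φ U) {z : ℂ} (hz : z ∈ U) : 0 < fffDet φ z := by
  have hinj := h.imm z hz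
  have ha : d1 φ 1 z ≠ 0 := by
    intro h0
    have : fderiv ℝ φ z 1 = fderiv ℝ φ z 0 := by rw [map_zero]; exact h0
    exact one_ne_zero (hinj this)
  have haa : 0 < ⟪d1 φ 1 z, d1 φ 1 z⟫ := real_inner_self_pos.2 ha
  set a := d1 φ 1 z with hadef
  set b := d1 φ Complex.I z with hbdef
  have hw : (⟪a, a⟫ : ℝ) • b - (⟪a, b⟫ : ℝ) • a ≠ 0 := by
    intro h0
    have h1 : fderiv ℝ φ z ((⟪a, a⟫ : ℝ) • Complex.I - (⟪a, b⟫ : ℝ) • (1 : ℂ)) = 0 := by
      rw [map_sub, map_smul, map_smul]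
      exact h0
    have h2 : (⟪a, a⟫ : ℝ) • Complex.I - (⟪a, b⟫ : ℝ) • (1 : ℂ) = 0 :=
      hinj (by rw [h1, map_zero])
    have h3 := congrArg Complex.im h2
    simp only [Complex.sub_im, Complex.smul_im, Complex.I_im, Complex.one_im, smul_eq_mul,
      mul_one, mul_zero, sub_zero, Complex.zero_im] at h3
    exact haa.ne' h3
  have hpos := real_inner_self_pos.2 hw
  have hexp : ⟪(⟪a, a⟫ : ℝ) • b - (⟪a, b⟫ : ℝ) • a, (⟪a, a⟫ : ℝ) • b - (⟪a, b⟫ : ℝ) • a⟫ =
      ⟪a, a⟫ * (⟪a, a⟫ * ⟪b, b⟫ - ⟪a, b⟫ ^ 2) := by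
    rw [inner_sub_left, inner_sub_right, inner_sub_right]
    simp only [real_inner_smul_left, real_inner_smul_right]
    rw [real_inner_comm a b]
    ring
  rw [hexp] at hpos
  have : fffDet φ z = ⟪a, a⟫ * ⟪b, b⟫ - ⟪a, b⟫ ^ 2 := rfl
  rw [this]
  exact (mul_pos_iff_of_pos_left haa).1 hpos

theorem c_d1 (h : Patch φ U) (v : ℂ) : ContinuousOn (fun z => d1 φ v z) U := by
  have h1 : ContinuousOn (fun z => fderiv ℝ φ z) U :=
    h.smooth.continuousOn_fderiv_of_isOpen h.isOpen (by simp)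
  exact h1.clm_apply continuousOn_const

theorem c_d2 (h : Patch φ U) (u v : ℂ) : ContinuousOn (fun z => d2 φ u v z) U := by
  have h1 : ContDiffOn ℝ ∞ (fun z => fderiv ℝ φ z) U :=
    h.smooth.fderiv_of_isOpen h.isOpen (by simp)
  have h2 : ContDiffOn ℝ ∞ (fun z => fderiv ℝ φ z v) U := h1.clm_apply contDiffOn_const
  have h3 : ContinuousOn (fun z => fderiv ℝ (fun w => fderiv ℝ φ w v) z) U :=
    h2.continuousOn_fderiv_of_isOpen h.isOpen (by simp)
  exact h3.clm_apply continuousOn_const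

theorem c_snd {E : Type} [TopologicalSpace E] {f : ℂ → E} (hf : ContinuousOn f U) :
    ContinuousOn (fun q : ℝ × ℂ => f q.2) (univ ×ˢ U) :=
  hf.comp continuous_snd.continuousOn fun _ hq => hq.2

theorem c_nor (hF : Frame φ N₁ N₂ U) :
    ContinuousOn (fun q : ℝ × ℂ => nor N₁ N₂ q.1 q.2) (univ ×ˢ U) := by
  unfold nor
  exact ((Real.continuous_cos.comp continuous_fst).continuousOn.smul
    (c_snd hF.smooth₁.continuousOn)).add
      ((Real.continuous_sin.comp continuous_fst).continuousOn.smul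
        (c_snd hF.smooth₂.continuousOn))

theorem c_rad (h : Patch φ U) (hF : Frame φ N₁ N₂ U) :
    ContinuousOn (fun q : ℝ × ℂ => rad (φ q.2) (nor N₁ N₂ q.1 q.2)) (univ ×ˢ U) := by
  unfold rad
  have hp : ContinuousOn (fun q : ℝ × ℂ => φ q.2) (univ ×ˢ U) := c_snd h.smooth.continuousOn
  refine ContinuousOn.div (continuousOn_const.sub (hp.norm.pow 2))
    (continuousOn_const.mul (continuousOn_const.add (hp.inner (c_nor hF)))) fun q hq => ?_
  exact (den_pos (h.inside q.2 hq.2) (norm_nor hF hq.2 q.1)).ne'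

theorem c_exc (h : Patch φ U) (hF : Frame φ N₁ N₂ U) (u v : ℂ) :
    ContinuousOn (fun q : ℝ × ℂ => exc φ (nor N₁ N₂ q.1 q.2) u v q.2) (univ ×ˢ U) := by
  unfold exc sff fff
  exact ((c_rad h hF).mul ((c_nor hF).inner (c_snd (c_d2 h u v)))).sub
    ((c_snd (c_d1 h u)).inner (c_snd (c_d1 h v)))

theorem c_excDet (h : Patch φ U) (hF : Frame φ N₁ N₂ U) :
    ContinuousOn (fun q : ℝ × ℂ => excDet φ (nor N₁ N₂ q.1 q.2) q.2) (univ ×ˢ U) := by
  unfold excDet
  exact ((c_exc h hF 1 1).mul (c_exc h hF Complex.I Complex.I)).sub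
    ((c_exc h hF 1 Complex.I).pow 2)

theorem c_fffDet (h : Patch φ U) : ContinuousOn (fun z => fffDet φ z) U := by
  unfold fffDet fff
  exact (((c_d1 h 1).inner (c_d1 h 1)).mul
    ((c_d1 h Complex.I).inner (c_d1 h Complex.I))).sub
      (((c_d1 h 1).inner (c_d1 h Complex.I)).pow 2)

theorem c_dens0 (h : Patch φ U) (hF : Frame φ N₁ N₂ U) :
    ContinuousOn (fun q : ℝ × ℂ => dens0 φ (nor N₁ N₂ q.1 q.2) q.2) (univ ×ˢ U) := by
  unfold dens0
  refine ContinuousOn.div (((c_rad h hF).div ((continuousOn_const.sub (c_rad h hF)).pow 3)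
    fun q hq => ?_).mul (c_excDet h hF).abs) (c_snd (c_fffDet h)).sqrt fun q hq => ?_
  · have h1 := rad_lt (h.inside q.2 hq.2) (norm_nor hF hq.2 q.1)
    exact pow_ne_zero 3 (sub_pos.2 h1).ne'
  · exact (Real.sqrt_pos.2 (det_pos h hq.2)).ne'

/-- CONT: continuity of the coefficients. -/
theorem cont : Pool.Agent.Y503.RB.St_CONT := fun _ _ _ _ h hF =>
  ⟨c_exc h hF 1 1, c_excDet h hF, c_dens0 h hF⟩

end Pool.Agent.Y349.RB
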